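import Pool.Agent.H5.OR.All3

/-!
# The isomorphism problem for the one-relator groups `⟨X, Y | v w^p v⁻¹ = w^q⟩`

`v` and `w` are arbitrary nontrivial words over disjoint alphabets.
-/

set_option autoImplicit false

namespace Pool.Agent.Results.MP_e1fd52_al.ConjugatePowers

open ORg

theorem result (X Y X' Y' : Type) [Finite X] [Finite Y] [Finite X'] [Finite Y']
    (v : FreeGroup Y) (w : FreeGroup X) (v' : FreeGroup Y') (w' : FreeGroup X') (p q p' q' : ℤ)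
    (hv : v ≠ 1) (hw : w ≠ 1) (hv' : v' ≠ 1) (hw' : w' ≠ 1) (hp : p ≠ 0) (hq : q ≠ 0)
    (hp' : p' ≠ 0) (hq' : q' ≠ 0) :
    Nonempty (PresentedGroup {rl v w p q} ≃* PresentedGroup {rl v' w' p' q'}) ↔
      ∃ θ : FreeGroup (X ⊕ Y) ≃* FreeGroup (X' ⊕ Y'),
        θ (rl v w p q) = rl v' w' p' q' ∨ θ (rl v w p q) = (rl v' w' p' q')⁻¹ :=
  All3.HF X Y X' Y' v w v' w' p q p' q' hv hw hv' hw' hp hq hp' hq'

end Pool.Agent.Results.MP_e1fd52_al.ConjugatePowers
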