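import Pool.Agent.H5.OR.All4

/-!
# The isomorphism problem for the one-relator groups `⟨X, Y | v^m = w^n⟩`, `|m|, |n| ≥ 2`

`v` and `w` are arbitrary nontrivial words over disjoint alphabets.
-/

set_option autoImplicit false

namespace Pool.Agent.Results.MP_e1fd52_al.CyclicallyPinchedPowers

open ORg

theorem result (X Y X' Y' : Type) [Finite X] [Finite Y] [Finite X'] [Finite Y']
    (v : FreeGroup Y) (w : FreeGroup X) (v' : FreeGroup Y') (w' : FreeGroup X') (m n m' n' : ℤ)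
    (hv : v ≠ 1) (hw : w ≠ 1) (hv' : v' ≠ 1) (hw' : w' ≠ 1) (hm : 2 ≤ |m|) (hn : 2 ≤ |n|)
    (hm' : 2 ≤ |m'|) (hn' : 2 ≤ |n'|) :
    Nonempty (PresentedGroup {rt v w m n} ≃* PresentedGroup {rt v' w' m' n'}) ↔
      ∃ θ : FreeGroup (X ⊕ Y) ≃* FreeGroup (X' ⊕ Y'),
        θ (rt v w m n) = rt v' w' m' n' ∨ θ (rt v w m n) = (rt v' w' m' n')⁻¹ :=
  All4.QF X Y X' Y' v w v' w' m n m' n' hv hw hv' hw' hm hn hm' hn'

end Pool.Agent.Results.MP_e1fd52_al.CyclicallyPinchedPowers
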