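import Pool.Agent.H5.OR.All3
import Pool.Agent.H5.OR.Final

/-!
# Rigidity of groups obtained by substituting words for several generators

`P = ⟨I, Y | R⟩` in the class `KS`, `w i` words over disjoint alphabets `X i` which are neither
primitive nor proper powers; the isomorphism class of the group `⟨X, Y | R(w, Y)⟩` is described by
the pairs `(F(X), (w i))` and `(P, (i))`.
-/

set_option autoImplicit false

open scoped Classical

namespace Pool.Agent.Results.MP_e1fd52_al.SeveralWords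

open ORg

theorem result :
    (∀ (I I' Y Y' : Type) [Finite I] [Finite I'] [Nonempty I] [Nonempty I']
      (X : I → Type) (X' : I' → Type) [∀ i, Finite (X i)] [∀ i, Finite (X' i)]
      (w : ∀ i, FreeGroup (X i)) (w' : ∀ i, FreeGroup (X' i)) (R : Set (FreeGroup (I ⊕ Y)))
      (R' : Set (FreeGroup (I' ⊕ Y'))), (∀ i, Root (w i) ∧ ¬ Prim (w i)) →
      (∀ i, Root (w' i) ∧ ¬ Prim (w' i)) → KS (PresentedGroup R) → KS (PresentedGroup R') →
      (∀ i, Inf (PresentedGroup.of (Sum.inl i) : PresentedGroup R)) →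
      (∀ i, Inf (PresentedGroup.of (Sum.inl i) : PresentedGroup R')) →
      (Nonempty (PresentedGroup (subW w '' R) ≃* PresentedGroup (subW w' '' R')) ↔
        ∃ (σ : I ≃ I') (e : I → ℤ) (β : PresentedGroup R ≃* PresentedGroup R')
          (θ : FreeGroup (Σ i, X i) ≃* FreeGroup (Σ i, X' i)), ∀ i, (e i = 1 ∨ e i = -1) ∧
          (∃ g : PresentedGroup R', β (PresentedGroup.of (Sum.inl i)) =
            g * PresentedGroup.of (Sum.inl (σ i)) ^ e i * g⁻¹) ∧
          ∃ g : FreeGroup (Σ i, X' i), θ (FreeGroup.map (Sigma.mk i) (w i)) =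
            g * FreeGroup.map (Sigma.mk (σ i)) (w' (σ i)) ^ e i * g⁻¹)) ∧
    (∀ (k : ℕ) (p q : ℤ), 0 < k → p ≠ 0 → q ≠ 0 → KS (OR (relK k p q)) ∧
      ∀ i, Inf (PresentedGroup.of (Sum.inl i) : OR (relK k p q))) ∧
    (∀ m n : ℤ, 2 ≤ |m| → 2 ≤ |n| → KS (OR (relT m n)) ∧
      ∀ i, Inf (PresentedGroup.of (Sum.inl i) : OR (relT m n))) ∧
    (∀ m n : ℤ, m ≠ 0 → n ≠ 0 → KS (OR (relG (FreeGroup.of ()) m n)) ∧
      Inf (PresentedGroup.of (some ()) : OR (relG (FreeGroup.of ()) m n))) :=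
  ⟨All3.MX, All3.KS, All3.QS, All.BG⟩

end Pool.Agent.Results.MP_e1fd52_al.SeveralWords
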