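import Pool.Agent.H5.OR.Final

/-!
# The isomorphism problem for three families of one-relator groups

For words `w`, `w'` in free groups of finite rank, neither primitive nor proper powers, the groups
`⟨X, t | t w^p t⁻¹ = w^q⟩`, `⟨X, t | w t^p w⁻¹ = t^q⟩` and `⟨X, t | w^p = t^q⟩` are completely
classified up to isomorphism.
-/

set_option autoImplicit false

namespace Pool.Agent.Results.MP_e1fd52_al.ThreeFamilies

open ORg

theorem result (X X' : Type) [Finite X] [Finite X'] (w : FreeGroup X) (w' : FreeGroup X')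
    (hw : Root w) (hp : ¬ Prim w) (hw' : Root w') (hp' : ¬ Prim w') (s s' : Sh)
    (hs : s.ok) (hs' : s'.ok) :
    Nonempty (PresentedGroup {s.rel w} ≃* PresentedGroup {s'.rel w'}) ↔
      ∃ α : FreeGroup X ≃* FreeGroup X',
        (α w = w' ∧ s.eqv true s') ∨ (α w = w'⁻¹ ∧ s.eqv false s') :=
  FAM X X' w w' hw hp hw' hp' s s' hs hs'

end Pool.Agent.Results.MP_e1fd52_al.ThreeFamilies
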